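import Pool.Agent.Helper77.PPB.Goals
import Pool.Agent.Helper72.RD.TOR

/-!
# Project PPB (MP_fc6b1e_nt), packet PPB-B_TOR: roots of unity in an extension of `p`-power degree
-/

namespace Pool.Agent.Helper3.PPB

open NumberField Polynomial Module IsDedekindDomain Pool.Agent.Helper51.SigLeo
open Pool.Agent.Helper51.RP Pool.Agent.Helper77.PPB

theorem mem_base {p : ℕ} (hp : p.Prime) {M M' : Type} [Field M] [Field M'] [NumberField M']
    [Algebra M M'] (n : ℕ) (hn : finrank M M' = p ^ n) (ξ : M') (hξ : IsPrimitiveRoot ξ p) :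
    ∃ η : M, algebraMap M M' η = ξ := by
  have : FiniteDimensional M M' := FiniteDimensional.of_finrank_pos (by
    rw [hn]; exact pow_pos hp.pos n)
  have hint : IsIntegral M ξ := IsIntegral.of_finite M ξ
  have hroot : aeval ξ (cyclotomic p M) = 0 := by
    have h1 : (cyclotomic p M').IsRoot ξ := hξ.isRoot_cyclotomic hp.pos
    rw [← map_cyclotomic p (algebraMap M M'), IsRoot.def, eval_map, ← aeval_def] at h1
    exact h1
  have hdvd : minpoly M ξ ∣ cyclotomic p M := minpoly.dvd M ξ hroot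
  have hle : (minpoly M ξ).natDegree ≤ p - 1 := by
    have h2 := natDegree_le_of_dvd hdvd (cyclotomic_ne_zero p M)
    rw [natDegree_cyclotomic, Nat.totient_prime hp] at h2
    exact h2
  have hd : (minpoly M ξ).natDegree ∣ p ^ n := by
    rw [← hn]
    exact minpoly.degree_dvd hint
  obtain ⟨k, -, hk⟩ := (Nat.dvd_prime_pow hp).1 hd
  have hk0 : k = 0 := by
    by_contra hk0
    have h3 : p ≤ p ^ k := Nat.le_self_pow hk0 p
    have := hp.pos
    omega
  rw [hk0, pow_zero] at hk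
  have h4 : (minpoly M ξ).degree = 1 := by
    rw [degree_eq_natDegree (minpoly.ne_zero hint), hk]
    rfl
  exact minpoly.mem_range_of_degree_eq_one M ξ h4

theorem b_tor : B_TOR := by
  intro p hp K M L M' _ _ _ _ _ _ _ _ n hn δ δ' P hext htor
  obtain ⟨i, hPi, hi⟩ := htor
  by_cases hprim : ∃ ξ : M', IsPrimitiveRoot ξ p
  · obtain ⟨ξ₀, hξ₀⟩ := hprim
    obtain ⟨g, t, ht, hgt, hg⟩ := Pool.Agent.Helper72.RD.exists_gen M'
    have hδg : (δ' g) ^ t = 1 := by rw [← map_pow, hgt, map_one]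
    obtain ⟨i', hi'⟩ := hg (δ' g) t ht hδg
    have hact : ∀ (ξ : M') (k : ℕ), 0 < k → ξ ^ k = 1 → δ' ξ = ξ ^ i' := by
      intro ξ k hk hξ
      obtain ⟨j, hj⟩ := hg ξ k hk hξ
      rw [hj, map_pow, hi', ← pow_mul, ← pow_mul, mul_comm]
    refine ⟨i', ?_, fun ξ n hξ => hact ξ _ (pow_pos hp.out.pos n) hξ⟩
    obtain ⟨η, hη⟩ := mem_base hp.out n hn ξ₀ hξ₀
    have hηp : η ^ p ^ 1 = 1 := by
      apply (algebraMap M M').injective
      rw [map_pow, hη, map_one, pow_one]
      exact hξ₀.pow_eq_one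
    have h1 : δ' ξ₀ = ξ₀ ^ i := by
      rw [← hη, hext, hi η 1 hηp, map_pow]
    have h2 : δ' ξ₀ = ξ₀ ^ i' := hact ξ₀ p hp.out.pos hξ₀.pow_eq_one
    have hcong : (i : ZMod p) = (i' : ZMod p) := by
      have hne : ξ₀ ≠ 0 := hξ₀.ne_zero hp.out.ne_zero
      have h3 : ξ₀ ^ ((i : ℤ) - (i' : ℤ)) = 1 := by
        rw [zpow_sub₀ hne, zpow_natCast, zpow_natCast, ← h1, ← h2,
          div_self (by rw [h2]; exact pow_ne_zero _ hne)]
      have h4 := (hξ₀.zpow_eq_one_iff_dvd _).1 h3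
      have h5 := (ZMod.intCast_zmod_eq_zero_iff_dvd ((i : ℤ) - i') p).2 h4
      push_cast at h5
      exact sub_eq_zero.1 h5
    rw [← hcong]
    exact hPi
  · refine ⟨i, hPi, ?_⟩
    intro ξ n hξ
    have h1 : ξ = 1 := by
      induction n with
      | zero => simpa using hξ
      | succ n ih =>
        apply ih
        by_contra hne
        apply hprim
        refine ⟨ξ ^ p ^ n, ?_⟩
        have h2 : (ξ ^ p ^ n) ^ p = 1 := by rw [← pow_mul, ← pow_succ]; exact hξ
        exact (IsPrimitiveRoot.iff_orderOf).2 (orderOf_eq_prime h2 hne)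
    rw [h1]; simp

end Pool.Agent.Helper3.PPB
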